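import Pool.Agent.H77.ST.CTM

/-!
# Consistency of CH with an Aronszajn tree satisfying CAT

There is a sentence `φ` of the language of set theory which says that the continuum hypothesis
holds and that there is an Aronszajn tree satisfying the colouring axiom CAT (`CHWithCATTree E`
is what `φ` says in a structure `(N, E)`), and `φ` is consistent with ZFC:

* every countable model of ZFC has a generic extension which is a model of ZFC and satisfies `φ`;
* if there is a model of ZFC (of any size) then there is a model of ZFC which satisfies `φ`;
* there is a countable model of ZFC which satisfies `φ` (a countable ground model is obtained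
  from Mathlib's type `ZFSet`).

The definitions used in the statement are in `Pool/Agent/H77/ST/Base.lean` (structures,
formulas, ZFC), `Pool/Agent/H77/ST/Gen.lean` (generic extensions) and
`Pool/Agent/H77/ST/CTD.lean` (trees, CAT, CH). The forcing notion is closed under unions of
countable chains and is not an iteration: conditions are countable matrices, one column is a
countable tree of injective functions, the other columns are countable subtrees whose
splitting nodes belong to named subsets of the tree; the columns are indexed by the largest
system of names of dense sets.
-/

namespace Pool.Agent.Results.MP_ec4214_lc.Consistency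

open ST ST.CT

/-- ZFC + CH is consistent with the existence of an Aronszajn tree satisfying CAT. -/
theorem result :
    ∃ φ : Fml 0,
      (∀ (N : Type) (E : N → N → Prop), Sat E φ Fin.elim0 ↔ CHWithCATTree E) ∧
      (∀ (M : Type) (D : M → M → Prop), Countable M → ZFC D →
        ∃ (N : Type) (E : N → N → Prop) (i : M → N),
          ZFC E ∧ IsGenExt D E i ∧ Sat E φ Fin.elim0) ∧
      (∀ (M : Type) (D : M → M → Prop), ZFC D →
        ∃ (N : Type) (E : N → N → Prop), ZFC E ∧ Sat E φ Fin.elim0) ∧
      ∃ (N : Type) (E : N → N → Prop), ZFC E ∧ Countable N ∧ Sat E φ Fin.elim0 :=
  main

end Pool.Agent.Results.MP_ec4214_lc.Consistency
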