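import Pool.Agent.H78.Cat.Final

/-!
# Jensen's principle diamond plus gives CH and an Aronszajn tree satisfying CAT

The definitions (`W1`, `IsClub`, `DiamondPlus`, `Node`, `Node.Le`, `IsMeet`, `IsAronszajn`,
`SatisfiesCAT`) are in `Pool/Agent/H78/Cat/Defs.lean`.
-/

namespace Pool.Agent.Results.MP_ec4214_lc.DiamondPlusCAT

open Pool.Agent.H78.CatDefs

/-- Jensen's principle `◇⁺` implies the continuum hypothesis together with the existence of an
Aronszajn tree that satisfies the coloring axiom CAT. -/
theorem result : DiamondPlus →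
    Cardinal.continuum.{0} = Cardinal.aleph 1 ∧
      ∃ T : Set Node, IsAronszajn T ∧ SatisfiesCAT T :=
  Pool.Agent.H78.CatFinal.cat_of_diamondPlus

end Pool.Agent.Results.MP_ec4214_lc.DiamondPlusCAT
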